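import Pool.Agent.H484.HH.Fin
import Pool.Agent.H484.HH.Eps
import Pool.Agent.H484.HH.Asm

/-!
# MP_dc06b6_nt, Q1: hybrid Hammersley and lattice point sets

For `s, t ≥ 1`, distinct primes `b_1, ..., b_s` and every prime `N` different from them there is a generator
`g ∈ {1, ..., N-1}^t` such that the hybrid point set `(n/N, φ_{b_1}(n), ..., φ_{b_s}(n), {n g_1/N}, ..., {n g_t/N})`,
`0 ≤ n < N`, has discrepancy `O((log N)^(s+t) log log N / N)`; in particular `O((log N)^(s+t+ε) / N)` for every `ε > 0`,
which is the positive answer to Q1.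

Outline.  The Halton coordinates are decomposed into residue classes modulo `∏ b_i^(k_i)`; what is needed is the local
discrepancy of the sequences `(m Q g / N)` in products of arcs.  The indicator function of an arc of `ℤ/N` is a sum of
tents (self-convolutions of arcs) of all dyadic widths.  For the scales of normalised volume `V ≥ 1` the error of a product of
tents is estimated by the Fourier transform on `ℤ/N`, the scales with `V < 1` are majorised together.  A frequency
`k` of the dual lattice contributes only to scales with `V ≤ N / ∏ max(1,|k_i|)`, so if the generator has no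
frequency with `∏ max(1,|k_i|) < N/T`, `T` a power of `log N`, then on average over `g` only `O((log N)^t log T)` scales
contribute, each of them `O(1)`.
-/

set_option autoImplicit false

namespace Pool.Agent.Results.MP_dc06b6_nt.HybridHammersleyLattice

open Pool.Agent.H484.HH

/-- Let `s, t ≥ 1`, let `b_1, ..., b_s` be distinct primes.  (1) There is a constant `C` such that for every prime `N`
different from the `b_i` some `g ∈ {1, ..., N-1}^t` satisfies `D_N(S_N(g)) ≤ C (log N)^(s+t) log(2 + log N) / N`.
(2) For every `ε > 0` there is a constant `C` such that for every prime `N` different from the `b_i` some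
`g ∈ {1, ..., N-1}^t` satisfies `D_N(S_N(g)) ≤ C (log N)^(s+t+ε) / N` (this is Q1). -/
theorem result : ∀ (s t : ℕ) (b : Fin s → ℕ), 1 ≤ s → 1 ≤ t → (∀ i, (b i).Prime) → Function.Injective b →
    (∃ C : ℝ, ∀ N : ℕ, N.Prime → (∀ i, b i ≠ N) →
      ∃ g : Fin t → ℕ, (∀ j, 1 ≤ g j ∧ g j ≤ N - 1) ∧
        disc N (pt b N g) ≤ C * (Real.log N ^ (s + t) * Real.log (2 + Real.log N) / N)) ∧
    (∀ ε : ℝ, 0 < ε → ∃ C : ℝ, ∀ N : ℕ, N.Prime → (∀ i, b i ≠ N) →
      ∃ g : Fin t → ℕ, (∀ j, 1 ≤ g j ∧ g j ≤ N - 1) ∧
        disc N (pt b N g) ≤ C * (Real.log N ^ ((s : ℝ) + t + ε) / N)) :=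
  fun s t b hs ht hb hinj =>
    ⟨t_FIN s t b hs ht hb hinj, fun ε hε => eps t_FIN s t b hs ht hb hinj ε hε⟩

end Pool.Agent.Results.MP_dc06b6_nt.HybridHammersleyLattice
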